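import Mathlib
import Pool.Agent.H710R2.DP.Defs
import Pool.Agent.H710R2.DP.Defs2
import Pool.Agent.H710R2.DP.Tasks
import Pool.Agent.H710R2.DP.VTasks

/-!
The structure theorem `V_struct` from its parts (task V13, helper92).
-/

open scoped ComplexOrder InnerProductSpace ComplexConjugate
open Finset

noncomputable section

namespace H710R2.DP

open H759R2.Kad

namespace VV13

variable {H : Type} [NormedAddCommGroup H] [InnerProductSpace ℂ H] [CompleteSpace H]

theorem norm_pr_le {p : H →L[ℂ] H} (hp : IsPr p) : ‖p‖ ≤ 1 := by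
  have h1 : ‖star p * p‖ = ‖p‖ * ‖p‖ := CStarRing.norm_star_mul_self
  rw [hp.1, hp.2] at h1
  have h2 := norm_nonneg p
  by_contra h
  push Not at h
  nlinarith

end VV13

theorem dp_Vstruct (h1 : V_B1) (h2 : V_abel) (h3 : V_inf) (h4 : V_fin) : V_struct.{0} := by
  intro H _ _ _ M q hq hq0
  by_cases hna : NoAb M q
  · exact ⟨q, hq, hq0, hq.1.2, Or.inr (h1 H M q hq hna)⟩
  · obtain ⟨e, heM, heP, hqe, heA, he0⟩ : ∃ e ∈ M, IsPr e ∧ q * e = e ∧ IsAb M e ∧ e ≠ 0 := by
      by_contra hcon
      apply hna
      intro e heM heP hqe heA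
      by_contra he0
      exact hcon ⟨e, heM, heP, hqe, heA, he0⟩
    obtain ⟨p, hp, hp0, hpz, I, v, hI, hv, hort, hpv, hsp⟩ := h2 H M e heM heP he0 heA
    have hqp : q * p = p := hpz q hq hqe
    have hpM : p ∈ M := hp.2.1
    have hpc : ∀ a ∈ M, p * a = a * p := hp.2.2
    have hps : star p = p := hp.1.1
    have hpp : p * p = p := hp.1.2
    have hes : star e = e := heP.1
    have hee : e * e = e := heP.2
    have he'M : p * e ∈ M := mul_mem hpM heM
    have he'P : IsPr (p * e) := by
      refine ⟨?_, ?_⟩
      · rw [star_mul, hes, hps, hpc e heM]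
      · calc p * e * (p * e) = p * (e * p) * e := by simp only [mul_assoc]
          _ = p * (p * e) * e := by rw [hpc e heM]
          _ = (p * p) * (e * e) := by simp only [mul_assoc]
          _ = p * e := by rw [hpp, hee]
    have he'A : IsAb M (p * e) := by
      intro x hx ε hε
      obtain ⟨z, hz, hzn⟩ := heA x hx ε hε
      refine ⟨z, hz, ?_⟩
      have e1 : p * e * x * (p * e) - z * (p * e) = p * (e * x * e - z * e) := by
        have a1 : p * e * x * (p * e) = p * (e * x * e) := by
          calc p * e * x * (p * e) = p * e * (x * p) * e := by simp only [mul_assoc]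
            _ = p * e * (p * x) * e := by rw [hpc x hx]
            _ = p * (e * p) * x * e := by simp only [mul_assoc]
            _ = p * (p * e) * x * e := by rw [hpc e heM]
            _ = (p * p) * (e * x * e) := by simp only [mul_assoc]
            _ = _ := by rw [hpp]
        have a2 : z * (p * e) = p * (z * e) := by
          rw [← mul_assoc, ← hpc z hz.1, mul_assoc]
        rw [a1, a2, mul_sub]
      rw [e1]
      calc ‖p * (e * x * e - z * e)‖ ≤ ‖p‖ * ‖e * x * e - z * e‖ := norm_mul_le _ _
        _ ≤ 1 * ε := mul_le_mul (VV13.norm_pr_le hp.1) hzn (norm_nonneg _) zero_le_one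
        _ = ε := one_mul ε
    refine ⟨p, hp, hp0, hqp, ?_⟩
    rcases finite_or_infinite I with hfin | hinf
    · exact Or.inl (h4 H M p (p * e) hp he'M he'P he'A I v hv hort hpv hsp)
    · exact Or.inr (h3 H M p (p * e) hp he'P I v hv hort hpv hsp)

end H710R2.DP
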